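import Pool.Agent.Helper81.BO.Tr
import Pool.Agent.Helper50.BO.St

/-!
# The trace power lemmas S1a, S1b, S1c of Theorem O
-/

set_option autoImplicit false

namespace Helper81.BO

open Matrix Pool.Agent.Helper50.BO

theorem s1a : S1a := by
  intro J _ _ M a q s hM hs hq
  refine ⟨pd_add hM a s hs, trp_mono hM a s hs q ?_⟩
  unfold lv at hq
  rw [← mul_assoc]
  exact hq

theorem s1b : S1b := by
  intro J _ _ M a q p hM hq hp hp4 hl
  unfold lv at hl
  have hα : 0 ≤ a ⬝ᵥ (M⁻¹ *ᵥ a) := by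
    rw [← mom_one]
    exact mom_nonneg hM.inv.posSemidef a 1
  have hq1 : (1 : ℝ) ≤ q := by exact_mod_cast hq
  have h1 : a ⬝ᵥ (M⁻¹ *ᵥ a) ≤ 1 / 8 := by nlinarith
  refine ⟨pd_sub hM a (p / 4) (by linarith) (by nlinarith), ?_⟩
  have := trp_exp hM a p hp.le (by linarith) q h1 (by linarith)
  unfold trp oo at this
  unfold TP
  linarith

theorem s1c : S1c := by
  intro J _ _ M q c hM hq hc h y
  have := low_of_trp hM q (by omega) (1 / c) (by positivity) h.le y
  rw [one_div, inv_mul_eq_div, le_div_iff₀ hc] at this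
  linarith

end Helper81.BO
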