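import Mathlib

/-!
# Trace power potential

For a real positive definite matrix `M` and a vector `a` whose leverage
`a^T M^-1 a` is small, the expected value of `Tr (M^-q)` does not increase when
`a a^T` is added with probability `p` and `(p/4) a a^T` is subtracted with
probability `1-p`.
-/

set_option autoImplicit false

namespace Helper81.BO

open Matrix Finset

variable {ι : Type*} [Fintype ι] [DecidableEq ι]

/-- The outer product of a vector with itself. -/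
def oo (a : ι → ℝ) : Matrix ι ι ℝ := Matrix.vecMulVec a a

/-- The trace of the `q`-th power of the inverse. -/
noncomputable def trp (q : ℕ) (M : Matrix ι ι ℝ) : ℝ := ((M⁻¹) ^ q).trace

/-- The moments `a^T A^k a`. -/
noncomputable def mom (A : Matrix ι ι ℝ) (a : ι → ℝ) (k : ℕ) : ℝ := a ⬝ᵥ ((A ^ k) *ᵥ a)

/-- Spectral form of the moments and of the trace. -/
theorem spec {A : Matrix ι ι ℝ} (hA : A.PosSemidef) :
    ∃ l : ι → ℝ, (∀ i, 0 ≤ l i) ∧ (∀ k, (A ^ k).trace = ∑ i, l i ^ k) ∧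
      ∀ a : ι → ℝ, ∃ c : ι → ℝ, (∀ i, 0 ≤ c i) ∧ (∀ k, mom A a k = ∑ i, c i * l i ^ k) ∧
        (∑ i, c i = a ⬝ᵥ a) := by
  classical
  obtain ⟨U, l, hl, hspec, hUU, hUU'⟩ : ∃ (U : Matrix ι ι ℝ) (l : ι → ℝ), (∀ i, 0 ≤ l i) ∧
      A = U * diagonal l * star U ∧ star U * U = 1 ∧ U * star U = 1 := by
    have hH := hA.isHermitian
    refine ⟨(hH.eigenvectorUnitary : Matrix ι ι ℝ), hH.eigenvalues, hA.eigenvalues_nonneg, ?_,
      Unitary.coe_star_mul_self _, Unitary.coe_mul_star_self _⟩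
    have h := hH.spectral_theorem
    rw [Unitary.conjStarAlgAut_apply] at h
    exact h
  have hpow : ∀ k : ℕ, A ^ k = U * diagonal (fun i => l i ^ k) * star U := by
    intro k
    induction k with
    | zero => simp [hUU']
    | succ n ih =>
      rw [pow_succ, ih]
      calc U * diagonal (fun i => l i ^ n) * star U * A
          = U * diagonal (fun i => l i ^ n) * star U * (U * diagonal l * star U) := by rw [← hspec]
        _ = U * diagonal (fun i => l i ^ n) * (star U * U) * diagonal l * star U := by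
            simp only [Matrix.mul_assoc]
        _ = _ := by
            rw [hUU, Matrix.mul_one, Matrix.mul_assoc U, diagonal_mul_diagonal]
            simp only [pow_succ]
  refine ⟨l, hl, ?_, ?_⟩
  · intro k
    rw [hpow, Matrix.trace_mul_comm, ← Matrix.mul_assoc, hUU, Matrix.one_mul, Matrix.trace_diagonal]
  · intro a
    refine ⟨fun i => ((star U) *ᵥ a) i ^ 2, fun i => sq_nonneg _, ?_, ?_⟩
    · intro k
      unfold mom
      rw [hpow]
      have h1 : a ⬝ᵥ ((U * diagonal (fun i => l i ^ k) * star U) *ᵥ a)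
          = (star U *ᵥ a) ⬝ᵥ (diagonal (fun i => l i ^ k) *ᵥ (star U *ᵥ a)) := by
        rw [← Matrix.mulVec_mulVec, ← Matrix.mulVec_mulVec, Matrix.dotProduct_mulVec]
        congr 1
        rw [← Matrix.mulVec_transpose]
        rfl
      rw [h1]
      simp only [dotProduct, Matrix.mulVec_diagonal]
      refine Finset.sum_congr rfl fun i _ => ?_
      ring
    · have h1 : a ⬝ᵥ a = (star U *ᵥ a) ⬝ᵥ (star U *ᵥ a) := by
        have h2 : a ⬝ᵥ a = a ⬝ᵥ ((U * star U) *ᵥ a) := by rw [hUU', Matrix.one_mulVec]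
        rw [h2, ← Matrix.mulVec_mulVec, Matrix.dotProduct_mulVec]
        congr 1
        rw [← Matrix.mulVec_transpose]
        rfl
      rw [h1]
      simp only [dotProduct]
      refine Finset.sum_congr rfl fun i _ => ?_
      ring

/-- Log-convexity of moments: `m_p m_q ≤ m_r m_s` for `r ≤ p, q` and `p + q = r + s`. -/
theorem mom_conv {A : Matrix ι ι ℝ} (hA : A.PosSemidef) (a : ι → ℝ) (r x y : ℕ) :
    mom A a (r + x) * mom A a (r + y) ≤ mom A a r * mom A a (r + x + y) := by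
  obtain ⟨l, hl, -, h⟩ := spec hA
  obtain ⟨c, hc, hm, -⟩ := h a
  rw [hm, hm, hm, hm]
  rw [Finset.sum_mul_sum, Finset.sum_mul_sum]
  have key : ∀ i j : ι, 0 ≤ (c i * c j) * (l i ^ r * l j ^ r * ((l i ^ x - l j ^ x) * (l i ^ y - l j ^ y))) := by
    intro i j
    refine mul_nonneg (mul_nonneg (hc i) (hc j)) (mul_nonneg (mul_nonneg (pow_nonneg (hl i) _) (pow_nonneg (hl j) _)) ?_)
    rcases le_total (l i) (l j) with h | h
    · have h1 := pow_le_pow_left₀ (hl i) h x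
      have h2 := pow_le_pow_left₀ (hl i) h y
      nlinarith
    · have h1 := pow_le_pow_left₀ (hl j) h x
      have h2 := pow_le_pow_left₀ (hl j) h y
      nlinarith
  have hs : 0 ≤ ∑ i, ∑ j, (c i * c j) * (l i ^ r * l j ^ r * ((l i ^ x - l j ^ x) * (l i ^ y - l j ^ y))) :=
    Finset.sum_nonneg fun i _ => Finset.sum_nonneg fun j _ => key i j
  have e1 : ∑ i, ∑ j, (c i * c j) * (l i ^ r * l j ^ r * ((l i ^ x - l j ^ x) * (l i ^ y - l j ^ y)))
      = (∑ i, ∑ j, c i * l i ^ r * (c j * l j ^ (r + x + y)) + ∑ i, ∑ j, c i * l i ^ (r + x + y) * (c j * l j ^ r))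
        - (∑ i, ∑ j, c i * l i ^ (r + x) * (c j * l j ^ (r + y)) + ∑ i, ∑ j, c i * l i ^ (r + y) * (c j * l j ^ (r + x))) := by
    rw [← Finset.sum_add_distrib, ← Finset.sum_add_distrib, ← Finset.sum_sub_distrib]
    refine Finset.sum_congr rfl fun i _ => ?_
    rw [← Finset.sum_add_distrib, ← Finset.sum_add_distrib, ← Finset.sum_sub_distrib]
    refine Finset.sum_congr rfl fun j _ => ?_
    simp only [pow_add]
    ring
  have e2 : ∑ i, ∑ j, c i * l i ^ (r + x + y) * (c j * l j ^ r) = ∑ i, ∑ j, c i * l i ^ r * (c j * l j ^ (r + x + y)) := by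
    rw [Finset.sum_comm]
    refine Finset.sum_congr rfl fun i _ => Finset.sum_congr rfl fun j _ => ?_
    ring
  have e3 : ∑ i, ∑ j, c i * l i ^ (r + y) * (c j * l j ^ (r + x)) = ∑ i, ∑ j, c i * l i ^ (r + x) * (c j * l j ^ (r + y)) := by
    rw [Finset.sum_comm]
    refine Finset.sum_congr rfl fun i _ => Finset.sum_congr rfl fun j _ => ?_
    ring
  rw [e1, e2, e3] at hs
  linarith

theorem mom_nonneg {A : Matrix ι ι ℝ} (hA : A.PosSemidef) (a : ι → ℝ) (k : ℕ) : 0 ≤ mom A a k := by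
  obtain ⟨l, hl, -, h⟩ := spec hA
  obtain ⟨c, hc, hm, -⟩ := h a
  rw [hm]
  exact Finset.sum_nonneg fun i _ => mul_nonneg (hc i) (pow_nonneg (hl i) _)


theorem oo_mulVec (a x : ι → ℝ) : oo a *ᵥ x = (a ⬝ᵥ x) • a := by
  unfold oo
  funext i
  simp only [Matrix.mulVec, Matrix.vecMulVec_apply, dotProduct, Pi.smul_apply, smul_eq_mul]
  rw [Finset.sum_mul]
  refine Finset.sum_congr rfl fun j _ => ?_
  ring

theorem mul_oo (A : Matrix ι ι ℝ) (a b : ι → ℝ) : A * vecMulVec a b = vecMulVec (A *ᵥ a) b := by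
  ext i j
  simp only [Matrix.mul_apply, Matrix.vecMulVec_apply, Matrix.mulVec, dotProduct]
  rw [Finset.sum_mul]
  refine Finset.sum_congr rfl fun k _ => ?_
  ring

theorem oo_mul {A : Matrix ι ι ℝ} (hA : A.IsHermitian) (a b : ι → ℝ) :
    vecMulVec a b * A = vecMulVec a (A *ᵥ b) := by
  ext i j
  simp only [Matrix.mul_apply, Matrix.vecMulVec_apply, Matrix.mulVec, dotProduct]
  rw [Finset.mul_sum]
  refine Finset.sum_congr rfl fun k _ => ?_
  have h : A k j = A j k := by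
    have := hA.apply j k
    simpa using this
  rw [h]
  ring

theorem vmv_mul_vmv (a b c d : ι → ℝ) : vecMulVec a b * vecMulVec c d = (b ⬝ᵥ c) • vecMulVec a d := by
  ext i j
  simp only [Matrix.mul_apply, Matrix.vecMulVec_apply, Matrix.smul_apply, smul_eq_mul, dotProduct]
  rw [Finset.sum_mul]
  refine Finset.sum_congr rfl fun k _ => ?_
  ring

theorem mul_inv_pd {M : Matrix ι ι ℝ} (hM : M.PosDef) : M * M⁻¹ = 1 :=
  Matrix.mul_nonsing_inv _ ((Matrix.isUnit_iff_isUnit_det _).1 hM.isUnit)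

theorem inv_mul_pd {M : Matrix ι ι ℝ} (hM : M.PosDef) : M⁻¹ * M = 1 :=
  Matrix.nonsing_inv_mul _ ((Matrix.isUnit_iff_isUnit_det _).1 hM.isUnit)

/-- Sherman-Morrison. -/
theorem sherman {M : Matrix ι ι ℝ} (hM : M.PosDef) (a : ι → ℝ) (g : ℝ)
    (hg : 1 + g * (a ⬝ᵥ (M⁻¹ *ᵥ a)) ≠ 0) :
    (M + g • oo a)⁻¹ = M⁻¹ - (g / (1 + g * (a ⬝ᵥ (M⁻¹ *ᵥ a)))) • oo (M⁻¹ *ᵥ a) := by
  apply Matrix.inv_eq_right_inv
  have hI := hM.inv.isHermitian
  have h1 := mul_inv_pd hM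
  set s := g / (1 + g * (a ⬝ᵥ (M⁻¹ *ᵥ a))) with hs
  have hs' : s * (1 + g * (a ⬝ᵥ (M⁻¹ *ᵥ a))) = g := div_mul_cancel₀ _ hg
  unfold oo
  rw [Matrix.mul_sub, Matrix.add_mul, Matrix.add_mul, h1, Matrix.smul_mul, oo_mul hI,
    Matrix.mul_smul, mul_oo, Matrix.mulVec_mulVec, h1, Matrix.one_mulVec,
    Matrix.smul_mul, Matrix.mul_smul, vmv_mul_vmv]
  ext i j
  simp only [Matrix.sub_apply, Matrix.add_apply, Matrix.smul_apply, smul_eq_mul]
  have : g * vecMulVec a (M⁻¹ *ᵥ a) i j = s * (1 + g * (a ⬝ᵥ (M⁻¹ *ᵥ a))) * vecMulVec a (M⁻¹ *ᵥ a) i j := by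
    rw [hs']
  rw [this]
  ring

theorem trace_mul_vmv (A : Matrix ι ι ℝ) (a b : ι → ℝ) : (A * vecMulVec a b).trace = b ⬝ᵥ (A *ᵥ a) := by
  rw [mul_oo, Matrix.trace_vecMulVec, dotProduct_comm]

/-- Telescoping of the trace of a power under a rank one change. -/
theorem trace_tel (A : Matrix ι ι ℝ) (u : ι → ℝ) (s : ℝ) (q j : ℕ) :
    (((A - s • oo u) ^ q) * A ^ j).trace
      = (A ^ (q + j)).trace - s * ∑ i ∈ range q, u ⬝ᵥ ((A ^ (q - 1 - i + j) * (A - s • oo u) ^ i) *ᵥ u) := by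
  induction q generalizing j with
  | zero => simp
  | succ q ih =>
    set B := A - s • oo u with hB
    have h1 : B ^ (q + 1) * A ^ j = B ^ q * A ^ (j + 1) - s • (B ^ q * vecMulVec u u * A ^ j) := by
      rw [pow_succ, pow_succ' A, Matrix.mul_assoc, ← Matrix.mul_assoc (B ^ q) A]
      conv_lhs => rw [hB]
      rw [← hB, Matrix.sub_mul, Matrix.mul_sub]
      unfold oo
      rw [Matrix.smul_mul, Matrix.mul_smul, Matrix.mul_assoc, Matrix.mul_assoc]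
    rw [h1, Matrix.trace_sub, Matrix.trace_smul, ih (j + 1)]
    have h2 : (B ^ q * vecMulVec u u * A ^ j).trace = u ⬝ᵥ ((A ^ j * B ^ q) *ᵥ u) := by
      rw [Matrix.trace_mul_comm, ← Matrix.mul_assoc, trace_mul_vmv]
    rw [h2, Finset.sum_range_succ, smul_eq_mul]
    have h3 : ∀ i ∈ range q, u ⬝ᵥ ((A ^ (q - 1 - i + (j + 1)) * B ^ i) *ᵥ u)
        = u ⬝ᵥ ((A ^ (q + 1 - 1 - i + j) * B ^ i) *ᵥ u) := by
      intro i hi
      have hi' := mem_range.1 hi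
      have : q - 1 - i + (j + 1) = q + 1 - 1 - i + j := by omega
      rw [this]
    rw [Finset.sum_congr rfl h3]
    have h4 : q + 1 - 1 - q + j = j := by omega
    have h5 : q + (j + 1) = q + 1 + j := by omega
    rw [h4, h5]
    ring


theorem xx_succ (A : Matrix ι ι ℝ) (u : ι → ℝ) (s : ℝ) (i j : ℕ) :
    u ⬝ᵥ ((A ^ j * (A - s • oo u) ^ (i + 1)) *ᵥ u)
      = u ⬝ᵥ ((A ^ (j + 1) * (A - s • oo u) ^ i) *ᵥ u)
        - s * mom A u j * (u ⬝ᵥ ((A ^ 0 * (A - s • oo u) ^ i) *ᵥ u)) := by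
  set B := A - s • oo u with hB
  have h1 : A ^ j * B ^ (i + 1) = A ^ (j + 1) * B ^ i - s • (vecMulVec (A ^ j *ᵥ u) u * B ^ i) := by
    rw [pow_succ' B, ← Matrix.mul_assoc]
    have : A ^ j * B = A ^ (j + 1) - s • vecMulVec (A ^ j *ᵥ u) u := by
      rw [hB, Matrix.mul_sub, pow_succ]
      unfold oo
      rw [Matrix.mul_smul, mul_oo]
    rw [this, Matrix.sub_mul, Matrix.smul_mul]
  rw [h1, Matrix.sub_mulVec, dotProduct_sub, Matrix.smul_mulVec, dotProduct_smul, pow_zero,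
    Matrix.one_mul, ← Matrix.mulVec_mulVec]
  have h2 : ∀ w : ι → ℝ, vecMulVec (A ^ j *ᵥ u) u *ᵥ w = (u ⬝ᵥ w) • (A ^ j *ᵥ u) := by
    intro w
    funext k
    simp only [Matrix.mulVec, Matrix.vecMulVec_apply, dotProduct, Pi.smul_apply, smul_eq_mul]
    rw [Finset.sum_mul]
    refine Finset.sum_congr rfl fun l _ => ?_
    ring
  rw [← Matrix.mulVec_mulVec (v := u) (M := vecMulVec (A ^ j *ᵥ u) u), h2, dotProduct_smul]
  unfold mom
  simp only [smul_eq_mul]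
  ring

/-- Moments of `u = A a`. -/
theorem mom_shift {A : Matrix ι ι ℝ} (hA : A.IsHermitian) (a : ι → ℝ) (k : ℕ) :
    mom A (A *ᵥ a) k = mom A a (k + 2) := by
  unfold mom
  have h1 : A ^ (k + 2) = A * (A ^ k * A) := by
    rw [← pow_succ, ← pow_succ']
  have hT : Aᵀ = A := by
    have h := hA
    rw [Matrix.IsHermitian, Matrix.conjTranspose_eq_transpose_of_trivial] at h
    exact h
  rw [h1, ← Matrix.mulVec_mulVec, ← Matrix.mulVec_mulVec, Matrix.dotProduct_mulVec a A]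
  congr 1
  rw [← Matrix.mulVec_transpose, hT]

/-- Upward change: bounds of the mixed moments. -/
theorem xx_up {A : Matrix ι ι ℝ} (hA : A.PosSemidef) (a : ι → ℝ) (s : ℝ) (hs : 0 ≤ s)
    (q : ℕ) (hq : q * (s * mom A a 1) ≤ 1) :
    ∀ i j : ℕ, i ≤ q →
      mom A (A *ᵥ a) (i + j) * (1 - i * (s * mom A a 1))
        ≤ (A *ᵥ a) ⬝ᵥ ((A ^ j * (A - s • oo (A *ᵥ a)) ^ i) *ᵥ (A *ᵥ a)) ∧
      (A *ᵥ a) ⬝ᵥ ((A ^ j * (A - s • oo (A *ᵥ a)) ^ i) *ᵥ (A *ᵥ a)) ≤ mom A (A *ᵥ a) (i + j) := by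
  intro i
  induction i with
  | zero =>
    intro j _
    have : (A *ᵥ a) ⬝ᵥ ((A ^ j * (A - s • oo (A *ᵥ a)) ^ 0) *ᵥ (A *ᵥ a)) = mom A (A *ᵥ a) (0 + j) := by
      rw [pow_zero, Matrix.mul_one, zero_add]
      rfl
    rw [this]
    refine ⟨?_, le_refl _⟩
    simp
  | succ i ih =>
    intro j hi
    rw [xx_succ]
    have hα := mom_nonneg hA a 1
    obtain ⟨h1, h2⟩ := ih (j + 1) (by omega)
    obtain ⟨h3, h4⟩ := ih 0 (by omega)
    have hg : 0 ≤ mom A (A *ᵥ a) j := mom_nonneg hA _ _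
    have hgi : 0 ≤ mom A (A *ᵥ a) i := mom_nonneg hA _ _
    have hgs : 0 ≤ mom A (A *ᵥ a) (i + 1 + j) := mom_nonneg hA _ _
    have hiq : (i : ℝ) * (s * mom A a 1) ≤ 1 := by
      refine le_trans (mul_le_mul_of_nonneg_right ?_ (mul_nonneg hs hα)) hq
      exact_mod_cast (by omega : i ≤ q)
    rw [add_zero] at h3 h4
    have h5 : 0 ≤ (A *ᵥ a) ⬝ᵥ ((A ^ 0 * (A - s • oo (A *ᵥ a)) ^ i) *ᵥ (A *ᵥ a)) :=
      le_trans (mul_nonneg hgi (by linarith)) h3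
    have e1 : i + (j + 1) = i + 1 + j := by omega
    rw [e1] at h1 h2
    have hconv : mom A (A *ᵥ a) j * mom A (A *ᵥ a) i ≤ mom A a 1 * mom A (A *ᵥ a) (i + 1 + j) := by
      rw [mom_shift hA.isHermitian, mom_shift hA.isHermitian, mom_shift hA.isHermitian]
      have := mom_conv hA a 1 (j + 1) (i + 1)
      have e2 : 1 + (j + 1) = j + 2 := by omega
      have e3 : 1 + (i + 1) = i + 2 := by omega
      have e4 : j + 2 + (i + 1) = i + 1 + j + 2 := by omega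
      rw [e2, e3, e4] at this
      exact this
    set X := (A *ᵥ a) ⬝ᵥ ((A ^ 0 * (A - s • oo (A *ᵥ a)) ^ i) *ᵥ (A *ᵥ a)) with hX
    constructor
    · have h6 : s * mom A (A *ᵥ a) j * X ≤ s * (mom A a 1 * mom A (A *ᵥ a) (i + 1 + j)) := by
        calc s * mom A (A *ᵥ a) j * X ≤ s * mom A (A *ᵥ a) j * mom A (A *ᵥ a) i :=
              mul_le_mul_of_nonneg_left h4 (mul_nonneg hs hg)
          _ = s * (mom A (A *ᵥ a) j * mom A (A *ᵥ a) i) := by ring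
          _ ≤ _ := mul_le_mul_of_nonneg_left hconv hs
      push_cast
      nlinarith
    · have h6 : 0 ≤ s * mom A (A *ᵥ a) j * X := mul_nonneg (mul_nonneg hs hg) h5
      linarith

/-- Downward change: bounds of the mixed moments. -/
theorem xx_dn {A : Matrix ι ι ℝ} (hA : A.PosSemidef) (a : ι → ℝ) (s : ℝ) (hs : 0 ≤ s)
    (q : ℕ) (hq : q * (2 * (s * mom A a 1)) ≤ 1) :
    ∀ i j : ℕ, i ≤ q →
      0 ≤ (A *ᵥ a) ⬝ᵥ ((A ^ j * (A - (-s) • oo (A *ᵥ a)) ^ i) *ᵥ (A *ᵥ a)) ∧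
      (A *ᵥ a) ⬝ᵥ ((A ^ j * (A - (-s) • oo (A *ᵥ a)) ^ i) *ᵥ (A *ᵥ a))
        ≤ mom A (A *ᵥ a) (i + j) * (1 + i * (2 * (s * mom A a 1))) := by
  intro i
  induction i with
  | zero =>
    intro j _
    have : (A *ᵥ a) ⬝ᵥ ((A ^ j * (A - (-s) • oo (A *ᵥ a)) ^ 0) *ᵥ (A *ᵥ a)) = mom A (A *ᵥ a) (0 + j) := by
      rw [pow_zero, Matrix.mul_one, zero_add]
      rfl
    rw [this]
    refine ⟨mom_nonneg hA _ _, ?_⟩
    simp
  | succ i ih =>
    intro j hi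
    rw [xx_succ]
    have hα := mom_nonneg hA a 1
    obtain ⟨h1, h2⟩ := ih (j + 1) (by omega)
    obtain ⟨h3, h4⟩ := ih 0 (by omega)
    have hg : 0 ≤ mom A (A *ᵥ a) j := mom_nonneg hA _ _
    have hgi : 0 ≤ mom A (A *ᵥ a) i := mom_nonneg hA _ _
    have hgs : 0 ≤ mom A (A *ᵥ a) (i + 1 + j) := mom_nonneg hA _ _
    have hiq : (i : ℝ) * (2 * (s * mom A a 1)) ≤ 1 := by
      refine le_trans (mul_le_mul_of_nonneg_right ?_ (by positivity)) hq
      exact_mod_cast (by omega : i ≤ q)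
    rw [add_zero] at h4
    have e1 : i + (j + 1) = i + 1 + j := by omega
    rw [e1] at h2
    have hconv : mom A (A *ᵥ a) j * mom A (A *ᵥ a) i ≤ mom A a 1 * mom A (A *ᵥ a) (i + 1 + j) := by
      rw [mom_shift hA.isHermitian, mom_shift hA.isHermitian, mom_shift hA.isHermitian]
      have := mom_conv hA a 1 (j + 1) (i + 1)
      have e2 : 1 + (j + 1) = j + 2 := by omega
      have e3 : 1 + (i + 1) = i + 2 := by omega
      have e4 : j + 2 + (i + 1) = i + 1 + j + 2 := by omega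
      rw [e2, e3, e4] at this
      exact this
    set X := (A *ᵥ a) ⬝ᵥ ((A ^ 0 * (A - (-s) • oo (A *ᵥ a)) ^ i) *ᵥ (A *ᵥ a)) with hX
    constructor
    · have h6 : 0 ≤ s * mom A (A *ᵥ a) j * X := mul_nonneg (mul_nonneg hs hg) h3
      linarith
    · have h4' : X ≤ mom A (A *ᵥ a) i * 2 := by
        refine le_trans h4 (mul_le_mul_of_nonneg_left ?_ hgi)
        linarith
      have h6 : s * mom A (A *ᵥ a) j * X ≤ s * (mom A a 1 * mom A (A *ᵥ a) (i + 1 + j)) * 2 := by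
        calc s * mom A (A *ᵥ a) j * X ≤ s * mom A (A *ᵥ a) j * (mom A (A *ᵥ a) i * 2) :=
              mul_le_mul_of_nonneg_left h4' (mul_nonneg hs hg)
          _ = s * (mom A (A *ᵥ a) j * mom A (A *ᵥ a) i) * 2 := by ring
          _ ≤ _ := by
              have := mul_le_mul_of_nonneg_left hconv hs
              linarith
      push_cast
      nlinarith

theorem mom_one (A : Matrix ι ι ℝ) (a : ι → ℝ) : mom A a 1 = a ⬝ᵥ (A *ᵥ a) := by
  unfold mom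
  rw [pow_one]

/-- Trace of the power after an upward change. -/
theorem trp_up {M : Matrix ι ι ℝ} (hM : M.PosDef) (a : ι → ℝ) (g : ℝ) (hg : 0 ≤ g) (q : ℕ)
    (hq : q * (g * (a ⬝ᵥ (M⁻¹ *ᵥ a))) ≤ 1) :
    trp q (M + g • oo a) ≤ trp q M
      - (g / (1 + g * (a ⬝ᵥ (M⁻¹ *ᵥ a)))) * (q * (mom M⁻¹ (M⁻¹ *ᵥ a) (q - 1) *
        (1 - q * ((g / (1 + g * (a ⬝ᵥ (M⁻¹ *ᵥ a)))) * (a ⬝ᵥ (M⁻¹ *ᵥ a)))))) := by
  have hA := hM.inv.posSemidef
  have hα : 0 ≤ a ⬝ᵥ (M⁻¹ *ᵥ a) := by rw [← mom_one]; exact mom_nonneg hA a 1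
  have hden : 0 < 1 + g * (a ⬝ᵥ (M⁻¹ *ᵥ a)) := by positivity
  set A := M⁻¹ with hAdef
  set s := g / (1 + g * (a ⬝ᵥ (A *ᵥ a))) with hs
  have hs0 : 0 ≤ s := by positivity
  have hsg : s ≤ g := div_le_self hg (by nlinarith [mul_nonneg hg hα])
  have hqs : (q : ℝ) * (s * mom A a 1) ≤ 1 := by
    rw [mom_one]
    refine le_trans (mul_le_mul_of_nonneg_left (mul_le_mul_of_nonneg_right hsg hα) (Nat.cast_nonneg _)) hq
  unfold trp
  rw [sherman hM a g (ne_of_gt hden)]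
  have htel := trace_tel A (A *ᵥ a) s q 0
  rw [pow_zero, Matrix.mul_one, add_zero] at htel
  rw [htel]
  have hsum : (q : ℝ) * (mom A (A *ᵥ a) (q - 1) * (1 - q * (s * (a ⬝ᵥ (A *ᵥ a)))))
      ≤ ∑ i ∈ range q, (A *ᵥ a) ⬝ᵥ ((A ^ (q - 1 - i + 0) * (A - s • oo (A *ᵥ a)) ^ i) *ᵥ (A *ᵥ a)) := by
    have hc : ∑ i ∈ range q, (mom A (A *ᵥ a) (q - 1) * (1 - q * (s * (a ⬝ᵥ (A *ᵥ a)))))
        = (q : ℝ) * (mom A (A *ᵥ a) (q - 1) * (1 - q * (s * (a ⬝ᵥ (A *ᵥ a))))) := by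
      rw [Finset.sum_const, card_range, nsmul_eq_mul]
    rw [← hc]
    refine Finset.sum_le_sum fun i hi => ?_
    have hi' := mem_range.1 hi
    have h1 := (xx_up hA a s hs0 q hqs i (q - 1 - i + 0) (by omega)).1
    have e : i + (q - 1 - i + 0) = q - 1 := by omega
    rw [e] at h1
    refine le_trans (mul_le_mul_of_nonneg_left ?_ (mom_nonneg hA _ _)) h1
    rw [mom_one]
    have : (i : ℝ) * (s * (a ⬝ᵥ (A *ᵥ a))) ≤ q * (s * (a ⬝ᵥ (A *ᵥ a))) :=
      mul_le_mul_of_nonneg_right (by exact_mod_cast (by omega : i ≤ q)) (mul_nonneg hs0 hα)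
    linarith
  have := mul_le_mul_of_nonneg_left hsum hs0
  linarith

/-- Trace of the power after a downward change. -/
theorem trp_dn {M : Matrix ι ι ℝ} (hM : M.PosDef) (a : ι → ℝ) (g : ℝ) (hg : 0 ≤ g) (q : ℕ)
    (hg1 : g * (a ⬝ᵥ (M⁻¹ *ᵥ a)) ≤ 1 / 2)
    (hq : q * (4 * (g * (a ⬝ᵥ (M⁻¹ *ᵥ a)))) ≤ 1) :
    trp q (M - g • oo a) ≤ trp q M
      + (g / (1 - g * (a ⬝ᵥ (M⁻¹ *ᵥ a)))) * (q * (mom M⁻¹ (M⁻¹ *ᵥ a) (q - 1) *
        (1 + q * (2 * ((g / (1 - g * (a ⬝ᵥ (M⁻¹ *ᵥ a)))) * (a ⬝ᵥ (M⁻¹ *ᵥ a))))))) := by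
  have hA := hM.inv.posSemidef
  have hα : 0 ≤ a ⬝ᵥ (M⁻¹ *ᵥ a) := by rw [← mom_one]; exact mom_nonneg hA a 1
  have hden : 0 < 1 - g * (a ⬝ᵥ (M⁻¹ *ᵥ a)) := by linarith
  set A := M⁻¹ with hAdef
  set s := g / (1 - g * (a ⬝ᵥ (A *ᵥ a))) with hs
  have hs0 : 0 ≤ s := by positivity
  have hsg : s ≤ 2 * g := by
    rw [hs, div_le_iff₀ hden]
    nlinarith
  have hqs : (q : ℝ) * (2 * (s * mom A a 1)) ≤ 1 := by
    rw [mom_one]
    refine le_trans (mul_le_mul_of_nonneg_left ?_ (Nat.cast_nonneg _)) hq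
    have := mul_le_mul_of_nonneg_right hsg hα
    linarith
  unfold trp
  have hneg : M - g • oo a = M + (-g) • oo a := by rw [neg_smul, sub_eq_add_neg]
  have hden' : 1 + -g * (a ⬝ᵥ (M⁻¹ *ᵥ a)) ≠ 0 := by
    rw [← hAdef]
    have : 1 + -g * (a ⬝ᵥ (A *ᵥ a)) = 1 - g * (a ⬝ᵥ (A *ᵥ a)) := by ring
    rw [this]
    exact ne_of_gt hden
  rw [hneg, sherman hM a (-g) hden']
  have hsn : -g / (1 + -g * (a ⬝ᵥ (M⁻¹ *ᵥ a))) = -s := by
    rw [← hAdef, hs]
    have : 1 + -g * (a ⬝ᵥ (A *ᵥ a)) = 1 - g * (a ⬝ᵥ (A *ᵥ a)) := by ring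
    rw [this, neg_div]
  rw [hsn, ← hAdef]
  have htel := trace_tel A (A *ᵥ a) (-s) q 0
  rw [pow_zero, Matrix.mul_one, add_zero] at htel
  rw [htel]
  have hsum : ∑ i ∈ range q, (A *ᵥ a) ⬝ᵥ ((A ^ (q - 1 - i + 0) * (A - (-s) • oo (A *ᵥ a)) ^ i) *ᵥ (A *ᵥ a))
      ≤ (q : ℝ) * (mom A (A *ᵥ a) (q - 1) * (1 + q * (2 * (s * (a ⬝ᵥ (A *ᵥ a)))))) := by
    have hc : ∑ i ∈ range q, (mom A (A *ᵥ a) (q - 1) * (1 + q * (2 * (s * (a ⬝ᵥ (A *ᵥ a))))))
        = (q : ℝ) * (mom A (A *ᵥ a) (q - 1) * (1 + q * (2 * (s * (a ⬝ᵥ (A *ᵥ a)))))) := by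
      rw [Finset.sum_const, card_range, nsmul_eq_mul]
    rw [← hc]
    refine Finset.sum_le_sum fun i hi => ?_
    have hi' := mem_range.1 hi
    have h1 := (xx_dn hA a s hs0 q hqs i (q - 1 - i + 0) (by omega)).2
    have e : i + (q - 1 - i + 0) = q - 1 := by omega
    rw [e] at h1
    refine le_trans h1 (mul_le_mul_of_nonneg_left ?_ (mom_nonneg hA _ _))
    rw [mom_one]
    have : (i : ℝ) * (2 * (s * (a ⬝ᵥ (A *ᵥ a)))) ≤ q * (2 * (s * (a ⬝ᵥ (A *ᵥ a)))) :=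
      mul_le_mul_of_nonneg_right (by exact_mod_cast (by omega : i ≤ q)) (by positivity)
    linarith
  have := mul_le_mul_of_nonneg_left hsum hs0
  linarith


/-- Cauchy-Schwarz for a positive semidefinite form. -/
theorem cs_psd {A : Matrix ι ι ℝ} (hA : A.PosSemidef) (x y : ι → ℝ) :
    (x ⬝ᵥ (A *ᵥ y)) ^ 2 ≤ (x ⬝ᵥ (A *ᵥ x)) * (y ⬝ᵥ (A *ᵥ y)) := by
  have hT : Aᵀ = A := by
    have h := hA.isHermitian
    rw [Matrix.IsHermitian, Matrix.conjTranspose_eq_transpose_of_trivial] at h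
    exact h
  have hsym : y ⬝ᵥ (A *ᵥ x) = x ⬝ᵥ (A *ᵥ y) := by
    rw [Matrix.dotProduct_mulVec, ← Matrix.mulVec_transpose, hT, dotProduct_comm]
  have hpos : ∀ z : ι → ℝ, 0 ≤ z ⬝ᵥ (A *ᵥ z) := by
    intro z
    have := hA.dotProduct_mulVec_nonneg z
    simpa using this
  have key : ∀ t : ℝ, 0 ≤ (y ⬝ᵥ (A *ᵥ y)) * (t * t) + 2 * (x ⬝ᵥ (A *ᵥ y)) * t + x ⬝ᵥ (A *ᵥ x) := by
    intro t
    have h := hpos (x + t • y)
    rw [Matrix.mulVec_add, Matrix.mulVec_smul, add_dotProduct, dotProduct_add, dotProduct_add,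
      smul_dotProduct, smul_dotProduct, dotProduct_smul, dotProduct_smul, hsym] at h
    simp only [smul_eq_mul] at h
    nlinarith
  have hd := discrim_le_zero key
  unfold discrim at hd
  nlinarith

/-- The cross Cauchy-Schwarz inequality `(a.x)^2 ≤ (a^T M^-1 a)(x^T M x)`. -/
theorem cs_inv {M : Matrix ι ι ℝ} (hM : M.PosDef) (a x : ι → ℝ) :
    (a ⬝ᵥ x) ^ 2 ≤ (a ⬝ᵥ (M⁻¹ *ᵥ a)) * (x ⬝ᵥ (M *ᵥ x)) := by
  have h := cs_psd hM.inv.posSemidef a (M *ᵥ x)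
  rw [Matrix.mulVec_mulVec, inv_mul_pd hM, Matrix.one_mulVec] at h
  rw [dotProduct_comm (M *ᵥ x) x] at h
  exact h

theorem isHerm_oo (a : ι → ℝ) : (oo a).IsHermitian := by
  unfold oo
  ext i j
  simp only [Matrix.conjTranspose_apply, Matrix.vecMulVec_apply, star_trivial]
  ring

theorem quad_oo (a x : ι → ℝ) : x ⬝ᵥ (oo a *ᵥ x) = (a ⬝ᵥ x) ^ 2 := by
  rw [oo_mulVec, dotProduct_smul, smul_eq_mul, dotProduct_comm x a]
  ring

theorem pd_add {M : Matrix ι ι ℝ} (hM : M.PosDef) (a : ι → ℝ) (g : ℝ) (hg : 0 ≤ g) :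
    (M + g • oo a).PosDef := by
  refine PosDef.of_dotProduct_mulVec_pos ?_ ?_
  · refine hM.isHermitian.add ?_
    have := (isHerm_oo a).smul (k := g) (by simp [IsSelfAdjoint])
    exact this
  · intro x hx
    have h1 := hM.dotProduct_mulVec_pos hx
    have h2 := quad_oo a x
    simp only [star_trivial] at h1 ⊢
    rw [Matrix.add_mulVec, dotProduct_add, Matrix.smul_mulVec, dotProduct_smul, h2, smul_eq_mul]
    have := mul_nonneg hg (sq_nonneg (a ⬝ᵥ x))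
    linarith

theorem pd_sub {M : Matrix ι ι ℝ} (hM : M.PosDef) (a : ι → ℝ) (g : ℝ) (hg : 0 ≤ g)
    (h : g * (a ⬝ᵥ (M⁻¹ *ᵥ a)) < 1) : (M - g • oo a).PosDef := by
  refine PosDef.of_dotProduct_mulVec_pos ?_ ?_
  · refine hM.isHermitian.sub ?_
    have := (isHerm_oo a).smul (k := g) (by simp [IsSelfAdjoint])
    exact this
  · intro x hx
    have h1 := hM.dotProduct_mulVec_pos hx
    have h2 := quad_oo a x
    have h3 := cs_inv hM a x
    simp only [star_trivial] at h1 ⊢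
    rw [Matrix.sub_mulVec, dotProduct_sub, Matrix.smul_mulVec, dotProduct_smul, h2, smul_eq_mul]
    have h4 := mul_le_mul_of_nonneg_left h3 hg
    nlinarith

/-- Upward changes do not increase the potential. -/
theorem trp_mono {M : Matrix ι ι ℝ} (hM : M.PosDef) (a : ι → ℝ) (g : ℝ) (hg : 0 ≤ g) (q : ℕ)
    (hq : q * (g * (a ⬝ᵥ (M⁻¹ *ᵥ a))) ≤ 1) : trp q (M + g • oo a) ≤ trp q M := by
  refine le_trans (trp_up hM a g hg q hq) ?_
  have hA := hM.inv.posSemidef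
  have hα : 0 ≤ a ⬝ᵥ (M⁻¹ *ᵥ a) := by rw [← mom_one]; exact mom_nonneg hA a 1
  have hden : 0 < 1 + g * (a ⬝ᵥ (M⁻¹ *ᵥ a)) := by positivity
  set s := g / (1 + g * (a ⬝ᵥ (M⁻¹ *ᵥ a))) with hs
  have hs0 : 0 ≤ s := by positivity
  have hsg : s ≤ g := div_le_self hg (by nlinarith [mul_nonneg hg hα])
  have hqs : (q : ℝ) * (s * (a ⬝ᵥ (M⁻¹ *ᵥ a))) ≤ 1 :=
    le_trans (mul_le_mul_of_nonneg_left (mul_le_mul_of_nonneg_right hsg hα) (Nat.cast_nonneg _)) hq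
  have : 0 ≤ s * (q * (mom M⁻¹ (M⁻¹ *ᵥ a) (q - 1) * (1 - q * (s * (a ⬝ᵥ (M⁻¹ *ᵥ a)))))) :=
    mul_nonneg hs0 (mul_nonneg (Nat.cast_nonneg _) (mul_nonneg (mom_nonneg hA _ _) (by linarith)))
  linarith

/-- The expectation step. -/
theorem trp_exp {M : Matrix ι ι ℝ} (hM : M.PosDef) (a : ι → ℝ) (p : ℝ) (hp : 0 ≤ p) (hp1 : p ≤ 1)
    (q : ℕ) (h1 : a ⬝ᵥ (M⁻¹ *ᵥ a) ≤ 1 / 8) (hq : q * (a ⬝ᵥ (M⁻¹ *ᵥ a)) ≤ 1 / 8) :
    p * trp q (M + oo a) + (1 - p) * trp q (M - (p / 4) • oo a) ≤ trp q M := by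
  have hA := hM.inv.posSemidef
  have hα : 0 ≤ a ⬝ᵥ (M⁻¹ *ᵥ a) := by rw [← mom_one]; exact mom_nonneg hA a 1
  set α := a ⬝ᵥ (M⁻¹ *ᵥ a) with hαd
  set G := mom M⁻¹ (M⁻¹ *ᵥ a) (q - 1) with hG
  have hG0 : 0 ≤ G := mom_nonneg hA _ _
  have hq0 : (0 : ℝ) ≤ q := Nat.cast_nonneg _
  have hqα : 0 ≤ (q : ℝ) * α := mul_nonneg hq0 hα
  have hu := trp_up hM a 1 (by norm_num) q (by rw [← hαd]; linarith)
  have hd := trp_dn hM a (p / 4) (by linarith) q (by rw [← hαd]; nlinarith) (by rw [← hαd]; nlinarith)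
  rw [one_smul, ← hαd, ← hG, one_mul] at hu
  rw [← hαd, ← hG] at hd
  set s := 1 / (1 + α) with hs
  set r := p / 4 / (1 - p / 4 * α) with hr
  have hs1 : s ≤ 1 := by
    rw [hs, div_le_one (by linarith)]
    linarith
  have hs2 : 8 / 9 ≤ s := by
    rw [hs, div_le_div_iff₀ (by norm_num) (by linarith)]
    linarith
  have hpα : p / 4 * α ≤ 1 / 32 := by nlinarith
  have hden : 0 < 1 - p / 4 * α := by linarith
  have hr0 : 0 ≤ r := by positivity
  have hr1 : r ≤ p * (8 / 31) := by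
    rw [hr, div_le_iff₀ hden]
    have := mul_le_mul_of_nonneg_left (show (31 : ℝ) / 32 ≤ 1 - p / 4 * α by linarith)
      (show 0 ≤ p * (8 / 31) by positivity)
    linarith
  have hr2 : r ≤ 8 / 31 := by nlinarith
  have hX : s * (1 - q * (s * α)) ≥ 7 / 9 := by
    have e1 : (q : ℝ) * (s * α) ≤ 1 / 8 := by
      have : (q : ℝ) * (s * α) = s * (q * α) := by ring
      rw [this]
      have := mul_le_mul hs1 hq hqα (by norm_num)
      linarith
    have := mul_le_mul hs2 (show (7 : ℝ) / 8 ≤ 1 - q * (s * α) by linarith) (by norm_num)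
      (by linarith)
    linarith
  have hY : r * (1 + q * (2 * (r * α))) ≤ p * (264 / 961) := by
    have e1 : (q : ℝ) * (2 * (r * α)) ≤ 2 / 31 := by
      have : (q : ℝ) * (2 * (r * α)) = 2 * (r * (q * α)) := by ring
      rw [this]
      have := mul_le_mul hr2 hq hqα (by norm_num)
      linarith
    have := mul_le_mul hr1 (show 1 + q * (2 * (r * α)) ≤ 33 / 31 by linarith)
      (by positivity) (by positivity)
    linarith
  have hu' : p * trp q (M + oo a) ≤ p * (trp q M - (q * G) * (7 / 9)) := by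
    refine mul_le_mul_of_nonneg_left (le_trans hu ?_) hp
    have : s * (q * (G * (1 - q * (s * α)))) = (q * G) * (s * (1 - q * (s * α))) := by ring
    rw [this]
    have := mul_le_mul_of_nonneg_left hX (mul_nonneg hq0 hG0)
    linarith
  have hd' : (1 - p) * trp q (M - (p / 4) • oo a) ≤ (1 - p) * (trp q M + (q * G) * (p * (264 / 961))) := by
    refine mul_le_mul_of_nonneg_left (le_trans hd ?_) (by linarith)
    have : r * (q * (G * (1 + q * (2 * (r * α))))) = (q * G) * (r * (1 + q * (2 * (r * α)))) := by ring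
    rw [this]
    have := mul_le_mul_of_nonneg_left hY (mul_nonneg hq0 hG0)
    linarith
  have hqG : 0 ≤ q * G := mul_nonneg hq0 hG0
  have hfin : (1 - p) * ((q * G) * (p * (264 / 961))) ≤ p * ((q * G) * (7 / 9)) := by
    have e1 : (1 - p) * ((q * G) * (p * (264 / 961))) = (p * (q * G)) * ((1 - p) * (264 / 961)) := by ring
    have e2 : p * ((q * G) * (7 / 9)) = (p * (q * G)) * (7 / 9) := by ring
    rw [e1, e2]
    exact mul_le_mul_of_nonneg_left (by linarith) (mul_nonneg hp hqG)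
  linarith

/-- The inverse form is bounded by the potential. -/
theorem inv_le_of_trp {M : Matrix ι ι ℝ} (hM : M.PosDef) (q : ℕ) (hq : q ≠ 0) (b : ℝ) (hb : 0 ≤ b)
    (h : trp q M ≤ b ^ q) (a : ι → ℝ) : a ⬝ᵥ (M⁻¹ *ᵥ a) ≤ b * (a ⬝ᵥ a) := by
  obtain ⟨l, hl, htr, hm⟩ := spec hM.inv.posSemidef
  obtain ⟨c, hc, hmom, hsum⟩ := hm a
  have hlb : ∀ i, l i ≤ b := by
    intro i
    have h1 : l i ^ q ≤ ∑ j, l j ^ q :=
      Finset.single_le_sum (f := fun j => l j ^ q) (fun j _ => pow_nonneg (hl j) _) (Finset.mem_univ i)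
    have h2 : l i ^ q ≤ b ^ q := by
      refine le_trans h1 ?_
      rw [← htr]
      exact h
    exact le_of_pow_le_pow_left₀ hq hb h2
  rw [← mom_one, hmom, ← hsum, Finset.mul_sum]
  refine Finset.sum_le_sum fun i _ => ?_
  rw [pow_one]
  have := mul_le_mul_of_nonneg_left (hlb i) (hc i)
  linarith

/-- The form itself is bounded below. -/
theorem low_of_trp {M : Matrix ι ι ℝ} (hM : M.PosDef) (q : ℕ) (hq : q ≠ 0) (b : ℝ) (hb : 0 ≤ b)
    (h : trp q M ≤ b ^ q) (x : ι → ℝ) : x ⬝ᵥ x ≤ b * (x ⬝ᵥ (M *ᵥ x)) := by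
  have h1 := cs_inv hM x x
  have h2 := inv_le_of_trp hM q hq b hb h x
  have hx : 0 ≤ x ⬝ᵥ x := by
    unfold dotProduct
    exact Finset.sum_nonneg fun i _ => mul_self_nonneg _
  have hMx : 0 ≤ x ⬝ᵥ (M *ᵥ x) := by
    have := hM.posSemidef.dotProduct_mulVec_nonneg x
    simpa using this
  have h3 : (x ⬝ᵥ x) ^ 2 ≤ b * (x ⬝ᵥ x) * (x ⬝ᵥ (M *ᵥ x)) :=
    le_trans h1 (mul_le_mul_of_nonneg_right h2 hMx)
  rcases hx.lt_or_eq with h4 | h4
  · have : (x ⬝ᵥ x) * (x ⬝ᵥ x) ≤ (x ⬝ᵥ x) * (b * (x ⬝ᵥ (M *ᵥ x))) := by nlinarith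
    exact le_of_mul_le_mul_left this h4
  · rw [← h4]
    positivity

end Helper81.BO
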